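import Pool.Agent.U423.FP.Base3
import Pool.Agent.U423.FP.Base4
import Pool.Agent.U423.FP.Base5
import Pool.Agent.U423.FP.Base6
import Pool.Agent.U423.FP.Base7

/-!
# The maximum number of edges of fan-planar multigraphs without homotopic parallel edges

For every `n ≥ 3` we determine `M(n)`: `M(3) = 3`, `M(4) = 8` and `M(n) = 5n - 10` for `n ≥ 5`.
-/

set_option autoImplicit false

namespace Pool.Agent.Results.MP_7b591c_co.ExactMaximum

open Pool.Agent.Q238.FP

/-- Some loopless multigraph with `n` vertices and `m` edges has a simple fan-planar drawing on the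
sphere in which parallel edges are pairwise non-homotopic. -/
def Attains (n m : ℕ) : Prop :=
  ∃ (V E F : Type) (_ : Finite V) (_ : Finite E) (_ : Finite F) (G : Drawing V E F),
    Nat.card V = n ∧ Nat.card E = m ∧ G.Loopless ∧ G.Simple ∧ G.FanPlanar ∧ G.NonHomotopic

theorem attains_of_good {n m : ℕ} (h : Pool.Agent.U423.FP.Good n m) : Attains n m := by
  obtain ⟨V, E, F, _, _, _, G, e, h1, h2, h3, h4, h5, h6, -⟩ := h
  exact ⟨V, E, F, ‹_›, ‹_›, ‹_›, G, h1, h2, h3, h4, h5, h6⟩

theorem good_all (n : ℕ) : 5 ≤ n → Pool.Agent.U423.FP.Good n (5 * n - 10) := by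
  induction n using Nat.strong_induction_on with
  | _ n ih =>
    intro hn
    by_cases h5 : n = 5
    · subst h5; exact Pool.Agent.U423.FP.good5
    by_cases h6 : n = 6
    · subst h6; exact Pool.Agent.U423.FP.good6
    by_cases h7 : n = 7
    · subst h7; exact Pool.Agent.U423.FP.good7
    have h := Pool.Agent.U423.FP.good_glue (by omega) (by omega) (ih (n - 3) (by omega) (by omega))
      Pool.Agent.U423.FP.good5
    have e1 : n - 3 + 5 - 2 = n := by omega
    have e2 : 5 * (n - 3) - 10 + 15 = 5 * n - 10 := by omega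
    rw [e1, e2] at h
    exact h

/-- The maximum number of edges of a fan-planar multigraph without homotopic parallel edges on `n`
vertices is `3` for `n = 3`, `8` for `n = 4`, and `5n - 10` for every `n ≥ 5`. -/
theorem result : IsGreatest {m | Attains 3 m} 3 ∧ IsGreatest {m | Attains 4 m} 8 ∧
    ∀ n : ℕ, 5 ≤ n → IsGreatest {m | Attains n m} (5 * n - 10) := by
  refine ⟨⟨attains_of_good Pool.Agent.U423.FP.good3, ?_⟩,
    ⟨attains_of_good Pool.Agent.U423.FP.good4, ?_⟩,
    fun n hn => ⟨attains_of_good (good_all n hn), ?_⟩⟩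
  · rintro m ⟨V, E, F, _, _, _, G, h1, rfl, h3, h4, h5, h6⟩
    exact G.card_le_three h3 h6 h1
  · rintro m ⟨V, E, F, _, _, _, G, h1, rfl, h3, h4, h5, h6⟩
    exact G.card_le_eight h3 h4 h5 h6 h1
  · rintro m ⟨V, E, F, _, _, _, G, h1, rfl, h3, h4, h5, h6⟩
    have _ := Fintype.ofFinite V
    have _ := Fintype.ofFinite E
    have h := G.card_edges_le h3 h4 h5 h6 (by rw [← Nat.card_eq_fintype_card]; omega)
    rw [← Nat.card_eq_fintype_card, ← Nat.card_eq_fintype_card, h1] at h
    omega

end Pool.Agent.Results.MP_7b591c_co.ExactMaximum
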